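import Pool.Agent.W262.RK.Stm

/-! Tasks RK-LOC and RK-GOOD. -/

set_option autoImplicit false

namespace Pool.Agent.W22.RK

open Pool.Agent.W262.RK

section val

variable {p : ℕ} [hp : Fact p.Prime]

/-- valuation of a sum -/
lemma v_add {a b : ℚ} (ha : a ≠ 0) (hb : b ≠ 0) (hab : a + b ≠ 0)
    (h : padicValRat p a < padicValRat p b) : padicValRat p (a + b) = padicValRat p a :=
  padicValRat.add_eq_of_lt hab ha hb h

lemma v_int {a : ℤ} (h : ¬ (p : ℤ) ∣ a) : padicValRat p (a : ℚ) = 0 := by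
  rw [padicValRat.of_int, padicValInt.eq_zero_of_not_dvd h]
  rfl

lemma v_neg (a : ℚ) : padicValRat p (-a) = padicValRat p a := padicValRat.neg a

lemma v_mul3 {x a b y : ℚ} (hx : x ≠ 0) (ha : a ≠ 0) (hb : b ≠ 0) (hxy : y ^ 2 = x * a * b) :
    padicValRat p x + padicValRat p a + padicValRat p b = 2 * padicValRat p y := by
  have h1 : padicValRat p (y ^ 2) = 2 * padicValRat p y := by
    rw [padicValRat.pow]
    norm_num
  rw [← h1, hxy, padicValRat.mul (mul_ne_zero hx ha) hb, padicValRat.mul hx ha]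

/-- `1 + r` is a square if `r` has positive valuation and `p` is odd. -/
lemma isSquare_one_add (hp2 : p ≠ 2) (r : ℚ_[p]) (hr : ‖r‖ < 1) : IsSquare (1 + r) := by
  let r' : ℤ_[p] := ⟨r, hr.le⟩
  let F : Polynomial ℤ_[p] := Polynomial.X ^ 2 - Polynomial.C (1 + r')
  have hr' : ‖r'‖ < 1 := hr
  have h1 : F.aeval (1 : ℤ_[p]) = -r' := by
    simp [F]
  have h2 : F.derivative.aeval (1 : ℤ_[p]) = 2 := by
    simp [F, one_add_one_eq_two]
  have h3 : ‖(2 : ℤ_[p])‖ = 1 := by
    have h4 : ¬ (p : ℤ) ∣ 2 := by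
      intro h
      have h5 : p ∣ 2 := by exact_mod_cast h
      exact hp2 ((Nat.prime_dvd_prime_iff_eq hp.out Nat.prime_two).1 h5)
    have h5 : ¬ ‖((2 : ℤ) : ℚ_[p])‖ < 1 := by
      rw [Padic.norm_intCast_lt_one_iff]
      exact h4
    have h6 : ‖(2 : ℤ_[p])‖ = ‖((2 : ℤ) : ℚ_[p])‖ := by
      rw [PadicInt.norm_def]
      norm_cast
    have h7 := PadicInt.norm_le_one (2 : ℤ_[p])
    rw [h6] at h7 ⊢
    exact le_antisymm h7 (not_lt.1 h5)
  obtain ⟨z, hz, -⟩ := hensels_lemma (p := p) (R := ℤ_[p]) (F := F) (a := 1) (by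
    rw [h1, h2, h3, norm_neg]
    simpa using hr')
  have h8 : z ^ 2 = 1 + r' := by
    have : F.aeval z = z ^ 2 - (1 + r') := by simp [F]
    rw [this] at hz
    exact sub_eq_zero.1 hz
  refine ⟨(z : ℚ_[p]), ?_⟩
  have h9 := congrArg (fun w : ℤ_[p] => (w : ℚ_[p])) h8
  simp only [PadicInt.coe_pow, PadicInt.coe_add, PadicInt.coe_one] at h9
  rw [← pow_two, h9]

/-- the same for rational numbers -/
lemma isSquare_one_add_rat (hp2 : p ≠ 2) (r : ℚ) (hr : r = 0 ∨ 0 < padicValRat p r) :
    IsSquare ((1 + r : ℚ) : ℚ_[p]) := by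
  rw [Rat.cast_add, Rat.cast_one]
  apply isSquare_one_add hp2
  rcases hr with rfl | hr
  · simp
  · by_cases h0 : r = 0
    · subst h0
      simp
    have h1 : ((r : ℚ) : ℚ_[p]) ≠ 0 := by exact_mod_cast h0
    rw [Padic.norm_eq_zpow_neg_valuation h1, Padic.valuation_ratCast]
    exact zpow_lt_one_of_neg₀ (by exact_mod_cast hp.out.one_lt) (by omega)

end val

theorem good : GOOD := by
  intro p _ A B hAB x y hy hxy
  have hA : ¬ (p : ℤ) ∣ A := fun h => hAB (Dvd.dvd.mul_right (Dvd.dvd.mul_right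
    (Dvd.dvd.mul_left h 2) B) _)
  have hB : ¬ (p : ℤ) ∣ B := fun h => hAB (Dvd.dvd.mul_right (Dvd.dvd.mul_left h _) _)
  have hC : ¬ (p : ℤ) ∣ (A - B) := fun h => hAB (Dvd.dvd.mul_left h _)
  have hA0 : (A : ℚ) ≠ 0 := by
    intro h
    apply hA
    have : A = 0 := by exact_mod_cast h
    simp [this]
  have hB0 : (B : ℚ) ≠ 0 := by
    intro h
    apply hB
    have : B = 0 := by exact_mod_cast h
    simp [this]
  have hC0 : ((A : ℚ) - B) ≠ 0 := by
    intro h
    apply hC
    have : A - B = 0 := by exact_mod_cast h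
    simp [this]
  have hy2 : y ^ 2 ≠ 0 := pow_ne_zero 2 hy
  rw [hxy] at hy2
  have hx : x ≠ 0 := left_ne_zero_of_mul (left_ne_zero_of_mul hy2)
  have hxA : x - A ≠ 0 := right_ne_zero_of_mul (left_ne_zero_of_mul hy2)
  have hxB : x - B ≠ 0 := right_ne_zero_of_mul hy2
  have vA : padicValRat p (A : ℚ) = 0 := v_int hA
  have vB : padicValRat p (B : ℚ) = 0 := v_int hB
  have vC : padicValRat p ((A : ℚ) - B) = 0 := by
    have := v_int (p := p) hC
    push_cast at this
    exact this
  have vA' : padicValRat p (-(A : ℚ)) = 0 := by rw [v_neg, vA]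
  have vB' : padicValRat p (-(B : ℚ)) = 0 := by rw [v_neg, vB]
  have vC' : padicValRat p ((B : ℚ) - A) = 0 := by rw [← neg_sub, v_neg, vC]
  have hC0' : ((B : ℚ) - A) ≠ 0 := by
    rw [← neg_sub]
    exact neg_ne_zero.2 hC0
  have hsum := v_mul3 (p := p) hx hxA hxB hxy
  have eA : x + -(A : ℚ) = x - A := by ring
  have eB : x + -(B : ℚ) = x - B := by ring
  rcases lt_trichotomy (padicValRat p x) 0 with h | h | h
  · have h1 : padicValRat p (x - A) = padicValRat p x := by
      rw [← eA]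
      exact v_add hx (neg_ne_zero.2 hA0) (by rw [eA]; exact hxA) (by rw [vA']; exact h)
    have h2 : padicValRat p (x - B) = padicValRat p x := by
      rw [← eB]
      exact v_add hx (neg_ne_zero.2 hB0) (by rw [eB]; exact hxB) (by rw [vB']; exact h)
    rw [h1, h2] at hsum ⊢
    have : Even (padicValRat p x) := by
      rw [Int.even_iff]
      omega
    exact ⟨this, this, this⟩
  · have h1 : 0 ≤ padicValRat p (x - A) := by
      rw [← eA]
      have := padicValRat.min_le_padicValRat_add (p := p) (q := x) (r := -(A : ℚ))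
        (by rw [eA]; exact hxA)
      rw [h, vA', min_self] at this
      exact this
    have h2 : 0 ≤ padicValRat p (x - B) := by
      rw [← eB]
      have := padicValRat.min_le_padicValRat_add (p := p) (q := x) (r := -(B : ℚ))
        (by rw [eB]; exact hxB)
      rw [h, vB', min_self] at this
      exact this
    rw [h] at hsum ⊢
    rcases h1.eq_or_lt with h3 | h3
    · rw [← h3] at hsum ⊢
      refine ⟨Even.zero, Even.zero, ?_⟩
      rw [Int.even_iff]
      omega
    · have h4 : padicValRat p (x - B) = 0 := by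
        have e : ((A : ℚ) - B) + (x - A) = x - B := by ring
        rw [← e, v_add hC0 hxA (by rw [e]; exact hxB) (by rw [vC]; exact h3), vC]
      rw [h4] at hsum ⊢
      refine ⟨Even.zero, ?_, Even.zero⟩
      rw [Int.even_iff]
      omega
  · have h1 : padicValRat p (x - A) = 0 := by
      have e : -(A : ℚ) + x = x - A := by ring
      rw [← e, v_add (neg_ne_zero.2 hA0) hx (by rw [e]; exact hxA) (by rw [vA']; exact h), vA']
    have h2 : padicValRat p (x - B) = 0 := by
      have e : -(B : ℚ) + x = x - B := by ring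
      rw [← e, v_add (neg_ne_zero.2 hB0) hx (by rw [e]; exact hxB) (by rw [vB']; exact h), vB']
    rw [h1, h2] at hsum ⊢
    refine ⟨?_, Even.zero, Even.zero⟩
    rw [Int.even_iff]
    omega

theorem loc : LOC := by
  intro p hpf A B hp2 hpA hpA2 hpB x y hy hxy
  have hA0 : (A : ℚ) ≠ 0 := by
    intro h
    apply hpA2
    have : A = 0 := by exact_mod_cast h
    simp [this]
  have hB0 : (B : ℚ) ≠ 0 := by
    intro h
    apply hpB
    have : B = 0 := by exact_mod_cast h
    simp [this]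
  have hy2 : y ^ 2 ≠ 0 := pow_ne_zero 2 hy
  rw [hxy] at hy2
  have hx : x ≠ 0 := left_ne_zero_of_mul (left_ne_zero_of_mul hy2)
  have hxA : x - A ≠ 0 := right_ne_zero_of_mul (left_ne_zero_of_mul hy2)
  have hxB : x - B ≠ 0 := right_ne_zero_of_mul hy2
  have vA : padicValRat p (A : ℚ) = 1 := by
    have hA0' : A ≠ 0 := by exact_mod_cast hA0
    rw [padicValRat.of_int]
    have h1 := (padicValInt_dvd_iff (p := p) 1 A).1 (by simpa using hpA)
    have h2 := mt (padicValInt_dvd_iff (p := p) 2 A).2 hpA2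
    push Not at h2
    have h3 := h2.2
    rcases h1 with h1 | h1
    · exact absurd h1 hA0'
    · omega
  have vB : padicValRat p (B : ℚ) = 0 := v_int hpB
  have vA' : padicValRat p (-(A : ℚ)) = 1 := by rw [v_neg, vA]
  have vB' : padicValRat p (-(B : ℚ)) = 0 := by rw [v_neg, vB]
  have hsum := v_mul3 (p := p) hx hxA hxB hxy
  have eA : x + -(A : ℚ) = x - A := by ring
  have eB : x + -(B : ℚ) = x - B := by ring
  have hxc : ((x : ℚ) : ℚ_[p]) ≠ 0 := by exact_mod_cast hx
  -- squares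
  have sqA : padicValRat p x < 1 → ∃ u : ℚ_[p], u ≠ 0 ∧ ((x - A : ℚ) : ℚ_[p]) = x * u ^ 2 := by
    intro h
    have h1 : 0 < padicValRat p (-(A : ℚ) / x) := by
      rw [padicValRat.div (neg_ne_zero.2 hA0) hx, vA']
      omega
    obtain ⟨u, hu⟩ := isSquare_one_add_rat hp2 (-(A : ℚ) / x) (Or.inr h1)
    have h2 : ((x - A : ℚ) : ℚ_[p]) = x * u ^ 2 := by
      rw [pow_two, ← hu, ← Rat.cast_mul]
      congr 1
      field_simp
      ring
    refine ⟨u, ?_, h2⟩
    rintro rfl
    have h3 : ((x - A : ℚ) : ℚ_[p]) ≠ 0 := by exact_mod_cast hxA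
    apply h3
    rw [h2]
    ring
  have hyc : ((y : ℚ) : ℚ_[p]) ^ 2 = x * ((x - A : ℚ) : ℚ_[p]) * ((x - B : ℚ) : ℚ_[p]) := by
    exact_mod_cast congrArg (fun w : ℚ => (w : ℚ_[p])) hxy
  rcases lt_trichotomy (padicValRat p x) 0 with h | h | h
  · have h1 : padicValRat p (x - A) = padicValRat p x := by
      rw [← eA]
      exact v_add hx (neg_ne_zero.2 hA0) (by rw [eA]; exact hxA) (by rw [vA']; omega)
    have h2 : padicValRat p (x - B) = padicValRat p x := by
      rw [← eB]
      exact v_add hx (neg_ne_zero.2 hB0) (by rw [eB]; exact hxB) (by rw [vB']; exact h)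
    obtain ⟨u, hu0, hu⟩ := sqA (by omega)
    have hev : Even (padicValRat p x) := by
      rw [h1, h2] at hsum
      rw [Int.even_iff]
      omega
    rw [h1, h2]
    refine ⟨hev, Iff.rfl, fun _ => ?_, fun h => absurd hev h⟩
    -- x - B = (y / (x u)) ^ 2
    refine ⟨((y : ℚ) : ℚ_[p]) / (x * u), ?_⟩
    rw [← pow_two, div_pow, hyc, hu]
    field_simp
  · have h1 : padicValRat p (x - A) = 0 := by
      rw [← eA, v_add hx (neg_ne_zero.2 hA0) (by rw [eA]; exact hxA) (by rw [vA', h]; norm_num), h]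
    obtain ⟨u, hu0, hu⟩ := sqA (by omega)
    rw [h, h1] at hsum ⊢
    refine ⟨?_, Iff.rfl, fun _ => ?_, fun h => absurd Even.zero h⟩
    · rw [Int.even_iff]
      omega
    · refine ⟨((y : ℚ) : ℚ_[p]) / (x * u), ?_⟩
      rw [← pow_two, div_pow, hyc, hu]
      field_simp
  · have h1 : padicValRat p (x - B) = 0 := by
      have e : -(B : ℚ) + x = x - B := by ring
      rw [← e, v_add (neg_ne_zero.2 hB0) hx (by rw [e]; exact hxB) (by rw [vB']; exact h), vB']
    have hodd : ¬ Even (padicValRat p x) ∧ ¬ Even (padicValRat p (x - A)) := by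
      rw [h1] at hsum
      rcases eq_or_ne (padicValRat p x) 1 with h2 | h2
      · rw [h2] at hsum ⊢
        refine ⟨by decide, ?_⟩
        rw [Int.even_iff]
        omega
      · have h3 : padicValRat p (x - A) = 1 := by
          have e : -(A : ℚ) + x = x - A := by ring
          rw [← e, v_add (neg_ne_zero.2 hA0) hx (by rw [e]; exact hxA) (by rw [vA']; omega), vA']
        rw [h3] at hsum ⊢
        refine ⟨?_, by decide⟩
        rw [Int.even_iff]
        omega
    refine ⟨by rw [h1]; exact Even.zero, ⟨fun h => absurd h hodd.1, fun h => absurd h hodd.2⟩,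
      fun h => absurd h hodd.1, fun _ => ?_⟩
    have h4 : 0 < padicValRat p (-x / (B : ℚ)) := by
      rw [padicValRat.div (neg_ne_zero.2 hx) hB0, vB, v_neg]
      omega
    obtain ⟨u, hu⟩ := isSquare_one_add_rat hp2 (-x / (B : ℚ)) (Or.inr h4)
    refine ⟨((B : ℚ) : ℚ_[p]) * u, ?_⟩
    have : ((B : ℚ) : ℚ_[p]) * u * (((B : ℚ) : ℚ_[p]) * u) = ((B : ℚ) : ℚ_[p]) ^ 2 * (u * u) := by
      ring
    rw [this, ← hu, ← Rat.cast_pow, ← Rat.cast_mul]
    congr 1
    field_simp
    ring

end Pool.Agent.W22.RK
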